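import Pool.Agent.Helper95.OD.St

set_option autoImplicit false

namespace Pool.Agent.Helper16.OD

open Pool.Agent.Helper95.OD Finset
open scoped Classical

theorem hPM : PM := by
  intro hCU hCT hCB hPC m r s hHy T hT A hA
  have hr : (16 : ℝ) ≤ r := by exact_mod_cast hHy.2.2.1
  have hs : 3 ≤ s := hHy.2.1
  have hr0 : (0 : ℝ) < r := by linarith
  have h2r : (2 : ℝ) / r ≤ 1 / 8 := by
    rw [div_le_div_iff₀ hr0 (by norm_num)]; linarith
  have h2r0 : (0 : ℝ) ≤ 2 / r := by positivity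
  have key : ∀ N ∈ Fam m r s A, Tr N ∧ 1 ≤ N.card ∧ 0 ≤ wt N ∧ wt N ≤ 1 / 2 := by
    intro N hN
    have h1 : Tr N ∧ 1 ≤ N.card := by
      rw [Fam, mem_union] at hN
      rcases hN with hN | hN
      · rw [KB, mem_image] at hN
        obtain ⟨X, hX, rfl⟩ := hN
        rw [mem_filter, mem_powersetCard] at hX
        obtain ⟨h1, h2⟩ := hCT m r s X hX.2 hX.1.2
        refine ⟨h1, ?_⟩
        rw [h2]
        exact Nat.choose_pos (by omega)
      · rw [mem_image] at hN
        obtain ⟨c, hc, rfl⟩ := hN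
        refine ⟨?_, by simp⟩
        intro a ha b hb _
        rw [mem_singleton] at ha hb
        rw [ha, hb]
    refine ⟨h1.1, h1.2, pow_nonneg h2r0 _, ?_⟩
    calc wt N = (2 / (r : ℝ)) ^ N.card := rfl
      _ ≤ (2 / (r : ℝ)) ^ 1 := pow_le_pow_of_le_one h2r0 (by linarith) h1.2
      _ ≤ 1 / 2 := by rw [pow_one]; linarith
  refine ⟨key, ?_⟩
  intro M
  induction M using Finset.induction_on with
  | empty =>
    have : (Fam m r s A).filter (fun N => CC (∅ : Finset (Cl m r)) N) = ∅ := by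
      apply filter_eq_empty_iff.2
      intro N _ h
      obtain ⟨a, ha, _⟩ := h
      simp at ha
    rw [this]; simp
  | insert c M hc ih =>
    have heq : (Fam m r s A).filter (fun N => CC (insert c M) N) =
        (Fam m r s A).filter (fun N => ∃ b ∈ N, Cc c b) ∪ (Fam m r s A).filter (fun N => CC M N) := by
      rw [← filter_or]
      apply filter_congr
      intro N _
      constructor
      · rintro ⟨a, ha, b, hb, hab⟩
        rcases mem_insert.1 ha with rfl | ha
        · exact Or.inl ⟨b, hb, hab⟩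
        · exact Or.inr ⟨a, ha, b, hb, hab⟩
      · rintro (⟨b, hb, hab⟩ | ⟨a, ha, b, hb, hab⟩)
        · exact ⟨c, mem_insert_self _ _, b, hb, hab⟩
        · exact ⟨a, mem_insert_of_mem ha, b, hb, hab⟩
    have h0 : ∀ N ∈ Fam m r s A, 0 ≤ 1 - wt N := fun N hN => by linarith [(key N hN).2.2.2]
    have h1 : ∀ N ∈ Fam m r s A, 1 - wt N ≤ 1 := fun N hN => by linarith [(key N hN).2.2.1]
    have h2 := hPC hCU hCT hCB m r s hHy T hT A hA c
    rw [heq, card_insert_of_notMem hc, pow_succ]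
    set S₁ := (Fam m r s A).filter (fun N => ∃ b ∈ N, Cc c b) with hS₁
    set S₂ := (Fam m r s A).filter (fun N => CC M N) with hS₂
    have h3 := prod_union_inter (s₁ := S₁) (s₂ := S₂) (f := fun N : Finset (Cl m r) => 1 - wt N)
    have hsub1 : S₁ ⊆ Fam m r s A := filter_subset _ _
    have hsub2 : S₂ ⊆ Fam m r s A := filter_subset _ _
    have h4 : ∏ N ∈ S₁ ∩ S₂, (1 - wt N) ≤ 1 :=
      prod_le_one (fun N hN => h0 N (hsub1 (mem_inter.1 hN).1))
        (fun N hN => h1 N (hsub1 (mem_inter.1 hN).1))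
    have h5 : 0 ≤ ∏ N ∈ S₁ ∪ S₂, (1 - wt N) :=
      prod_nonneg (fun N hN => h0 N (union_subset hsub1 hsub2 hN))
    have h6 : (∏ N ∈ S₁, (1 - wt N)) * ∏ N ∈ S₂, (1 - wt N) ≤ ∏ N ∈ S₁ ∪ S₂, (1 - wt N) := by
      rw [← h3]
      exact mul_le_of_le_one_right h5 h4
    have h7 : (0 : ℝ) ≤ (1 / 2) ^ M.card := by positivity
    calc (1 / 2 : ℝ) ^ M.card * (1 / 2) ≤ (∏ N ∈ S₂, (1 - wt N)) * ∏ N ∈ S₁, (1 - wt N) := by
          apply mul_le_mul ih h2 (by norm_num) (le_trans h7 ih)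
      _ ≤ _ := by rw [mul_comm]; exact h6

end Pool.Agent.Helper16.OD
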