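import Pool.Agent.Helper48.OD.St

/-! Project OD, module QUO: quotients. -/

set_option autoImplicit false

namespace Pool.Agent.Helper16.OD

open Pool.Agent.Helper43.GD Pool.Agent.Helper48.OD

private lemma qx_val {L : Type} [CommRing L] (I : Ideal L) (x : Lˣ) :
    ((qx I x : (L ⧸ I)ˣ) : L ⧸ I) = Ideal.Quotient.mk I (x : L) := rfl

private lemma gn_quo {L : Type} [CommRing L] (I : Ideal L) (x : Lˣ) (h : Gn (x : L)) :
    Gn ((qx I x : (L ⧸ I)ˣ) : L ⧸ I) := by
  intro N h1 hN y
  obtain ⟨z, rfl⟩ := Ideal.Quotient.mk_surjective y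
  have h2 := h (N.comap (Ideal.Quotient.mk I : L →+* L ⧸ I).toAddMonoidHom) ?_ ?_ z
  · exact h2
  · rw [AddSubgroup.mem_comap]
    simpa using h1
  · intro w hw
    rw [AddSubgroup.mem_comap] at *
    have h3 := hN _ hw
    simpa [qx_val] using h3

private lemma pow_quo {L : Type} [CommRing L] (I : Ideal L) (x : Lˣ) (h : ℕ)
    (e : (x : L) ^ h = -1) : ((qx I x : (L ⧸ I)ˣ) : L ⧸ I) ^ h = -1 := by
  rw [qx_val, ← map_pow, e, map_neg, map_one]

private lemma tri_quo {L : Type} [CommRing L] (I : Ideal L) (x : Lˣ) (l k : ℕ)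
    (e : (x : L) ^ l + (x : L) ^ k = 1) :
    ((qx I x : (L ⧸ I)ˣ) : L ⧸ I) ^ l + ((qx I x : (L ⧸ I)ˣ) : L ⧸ I) ^ k = 1 := by
  rw [qx_val, ← map_pow, ← map_pow, ← map_add, e, map_one]

private lemma fin_quo {L : Type} [CommRing L] (I : Ideal L) (h : Finite L) : Finite (L ⧸ I) :=
  Finite.of_surjective _ (Ideal.Quotient.mk_surjective (I := I))

theorem hQUO : StQUO := by
  constructor
  · intro l k h r L _ x I H
    exact { H with
      fin := fin_quo I H.fin
      gn := gn_quo I x H.gn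
      xh := pow_quo I x h H.xh
      tri := tri_quo I x l k H.tri }
  · intro l k h a L _ x I H
    exact { H with
      fin := fin_quo I H.fin
      gn := gn_quo I x H.gn
      xh := pow_quo I x h H.xh
      tri := tri_quo I x l k H.tri }

end Pool.Agent.Helper16.OD
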